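import Pool.Agent.Q190.AM.Ord

/-!
# Linear algebra for the wreath product with a cyclic group of prime order
-/

set_option autoImplicit false

open scoped Classical

noncomputable section

namespace Pool.Agent.Q190.AM

open Pool.Agent.Q17.WR Pool.Agent.Q17.AM

/-- dual coefficients of linearly independent functions -/
lemma exists_dual {G ι : Type} [Fintype G] [Fintype ι] (e : ι → G → ℂ)
    (he : LinearIndependent ℂ e) : ∃ c : ι → G → ℂ, ∀ k k', ∑ g, c k g * e k' g =
      if k = k' then 1 else 0 := by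
  have h1 : LinearMap.ker (Fintype.linearCombination ℂ e) = ⊥ := by
    rw [LinearMap.ker_eq_bot]
    exact he.fintypeLinearCombination_injective
  obtain ⟨L, hL⟩ := LinearMap.exists_leftInverse_of_injective _ h1
  refine ⟨fun k g => L (Pi.single g 1) k, fun k k' => ?_⟩
  have h2 : L (e k') = Pi.single k' 1 := by
    have h3 := LinearMap.congr_fun hL (Pi.single k' 1)
    rw [LinearMap.comp_apply, Fintype.linearCombination_apply_single, one_smul] at h3
    exact h3
  have h4 : e k' = ∑ g, e k' g • (Pi.single g (1 : ℂ) : G → ℂ) := by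
    conv_lhs => rw [← Finset.univ_sum_single (e k')]
    refine Finset.sum_congr rfl fun g _ => ?_
    rw [← Pi.single_smul, smul_eq_mul, mul_one]
  have h5 : L (e k') k = ∑ g, L (Pi.single g 1) k * e k' g := by
    conv_lhs => rw [h4]
    rw [map_sum, Finset.sum_apply]
    refine Finset.sum_congr rfl fun g _ => ?_
    rw [map_smul, Pi.smul_apply, smul_eq_mul, mul_comm]
  rw [← h5, h2, Pi.single_apply]

/-- products of dual coefficients -/
lemma dual_prod {Ω G ι : Type} [Fintype Ω] [DecidableEq Ω] [Fintype G] [Fintype ι] (e c : ι → G → ℂ)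
    (hc : ∀ k k', ∑ g, c k g * e k' g = if k = k' then 1 else 0) (i j : Ω → ι) :
    ∑ m : Ω → G, prf (fun ω => c (j ω)) m * prf (fun ω => e (i ω)) m = if j = i then 1 else 0 := by
  have h1 : ∀ m : Ω → G, prf (fun ω => c (j ω)) m * prf (fun ω => e (i ω)) m =
      ∏ ω, c (j ω) (m ω) * e (i ω) (m ω) := fun m => by
    rw [prf, prf, ← Finset.prod_mul_distrib]
  simp only [h1]
  have h2 := (Finset.prod_univ_sum (fun _ : Ω => (Finset.univ : Finset G))
    (fun ω g => c (j ω) g * e (i ω) g)).symm
  rw [Fintype.piFinset_univ] at h2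
  rw [h2]
  simp only [hc]
  split_ifs with h
  · subst h
    simp
  · obtain ⟨ω, hω⟩ := Function.ne_iff.1 h
    exact Finset.prod_eq_zero (Finset.mem_univ ω) (if_neg hω)

/-- expansion of a product of sums -/
lemma prf_sum {Ω G ι : Type} [Fintype Ω] [DecidableEq Ω] [Fintype ι] (e : ι → G → ℂ) (f : Ω → G → ℂ)
    (c : Ω → ι → ℂ) (h : ∀ ω g, f ω g = ∑ k, c ω k * e k g) (m : Ω → G) :
    prf f m = ∑ i : Ω → ι, (∏ ω, c ω (i ω)) * prf (fun ω => e (i ω)) m := by
  have h2 := Finset.prod_univ_sum (fun _ : Ω => (Finset.univ : Finset ι))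
    (fun ω k => c ω k * e k (m ω))
  rw [Fintype.piFinset_univ] at h2
  rw [prf]
  simp only [h]
  rw [h2]
  refine Finset.sum_congr rfl fun i _ => ?_
  rw [Finset.prod_mul_distrib, prf]

variable {r : ℕ} [Fact r.Prime]

/-- the action of `Cy r` on maps -/
local instance actI (ι : Type) : MulAction (Cy r) (Cy r → ι) := arrowAction

lemma act_apply {ι : Type} (a : Cy r) (i : Cy r → ι) (ω : Cy r) : (a • i) ω = i (a⁻¹ * ω) := rfl

/-- orbits -/
abbrev Ob (r : ℕ) [Fact r.Prime] (ι : Type) : Type :=
  Quotient (MulAction.orbitRel (Cy r) (Cy r → ι))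

lemma card_Ob (ι : Type) [Fintype ι] : (r : ℤ) * (Fintype.card (Ob r ι) : ℤ) =
    (Fintype.card ι : ℤ) ^ r + (r - 1) * (Fintype.card ι : ℤ) := by
  have h1 := MulAction.sum_card_fixedBy_eq_card_orbits_mul_card_group (Cy r) (Cy r → ι)
  have hr : Fintype.card (Cy r) = r := by
    rw [← Nat.card_eq_fintype_card, card_Cy]
  rw [hr] at h1
  have h2 : ∀ a : Cy r, (Fintype.card (MulAction.fixedBy (Cy r → ι) a) : ℤ) =
      (if a = 1 then (Fintype.card ι : ℤ) ^ r - Fintype.card ι else 0) + Fintype.card ι := by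
    intro a
    split_ifs with ha
    · subst ha
      have h3 : MulAction.fixedBy (Cy r → ι) (1 : Cy r) = Set.univ := by
        ext i
        simp
      have h4 : Fintype.card (MulAction.fixedBy (Cy r → ι) (1 : Cy r)) =
          Fintype.card (Cy r → ι) := by
        rw [Fintype.card_congr (Equiv.setCongr h3), Fintype.card_congr (Equiv.Set.univ _)]
      rw [h4, Fintype.card_fun, hr]
      push_cast
      ring
    · rw [zero_add]
      have h5 : Fintype.card (MulAction.fixedBy (Cy r → ι) a) = Fintype.card ι := by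
        refine Fintype.card_congr
          { toFun := fun i => i.1 1
            invFun := fun k => ⟨fun _ => k, ?_⟩
            left_inv := ?_
            right_inv := ?_ }
        · rw [MulAction.mem_fixedBy]
          funext ω
          rfl
        · rintro ⟨i, hi⟩
          apply Subtype.ext
          funext ω
          change i 1 = i ω
          rw [MulAction.mem_fixedBy] at hi
          have ha' : a⁻¹ ≠ 1 := by simpa using ha
          obtain ⟨n, rfl⟩ := cyc_gen ha' ω
          induction n with
          | zero => simp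
          | succ n ih =>
            have h6 := congrFun hi (a⁻¹ ^ n)
            rw [act_apply] at h6
            rw [pow_succ', h6]
            exact ih
        · intro k
          rfl
      rw [h5]
  have h6 : ((∑ a : Cy r, Fintype.card (MulAction.fixedBy (Cy r → ι) a) : ℕ) : ℤ) =
      (Fintype.card (Ob r ι) : ℤ) * r := by
    rw [h1]
    push_cast
    rfl
  rw [Nat.cast_sum] at h6
  simp only [h2] at h6
  rw [Finset.sum_add_distrib, Finset.sum_ite_eq' , Finset.sum_const, Finset.card_univ, hr,
    if_pos (Finset.mem_univ _), nsmul_eq_mul] at h6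
  linarith

variable {G : Type} [Group G]

/-- the parametrisation of the space -/
def Psi {ι : Type} [Fintype ι] (e : ι → G → ℂ) :
    ((Ob r ι → ℂ) × ({b : Cy r // b ≠ 1} × ι → ℂ)) →ₗ[ℂ] (Wc G r → ℂ) where
  toFun v x := if h : x.right = 1 then ∑ i : Cy r → ι, v.1 (Quotient.mk _ i) *
      prf (fun ω => e (i ω)) x.left
    else ∑ k, v.2 (⟨x.right, h⟩, k) * e k ((x ^ r).left 1)
  map_add' v w := by
    funext x
    simp only [Prod.fst_add, Prod.snd_add, Pi.add_apply]
    split_ifs
    · rw [← Finset.sum_add_distrib]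
      refine Finset.sum_congr rfl fun i _ => by ring
    · rw [← Finset.sum_add_distrib]
      refine Finset.sum_congr rfl fun i _ => by ring
  map_smul' c v := by
    funext x
    simp only [Prod.smul_fst, Prod.smul_snd, Pi.smul_apply, smul_eq_mul, RingHom.id_apply]
    split_ifs
    · rw [Finset.mul_sum]
      refine Finset.sum_congr rfl fun i _ => by ring
    · rw [Finset.mul_sum]
      refine Finset.sum_congr rfl fun i _ => by ring

lemma Psi_base {ι : Type} [Fintype ι] (e : ι → G → ℂ)
    (v : (Ob r ι → ℂ) × ({b : Cy r // b ≠ 1} × ι → ℂ)) (x : Wc G r) (h : x.right = 1) :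
    Psi e v x = ∑ i : Cy r → ι, v.1 (Quotient.mk _ i) * prf (fun ω => e (i ω)) x.left := by
  change dite _ _ _ = _
  rw [dif_pos h]

lemma Psi_off {ι : Type} [Fintype ι] (e : ι → G → ℂ)
    (v : (Ob r ι → ℂ) × ({b : Cy r // b ≠ 1} × ι → ℂ)) (x : Wc G r) (h : x.right ≠ 1) :
    Psi e v x = ∑ k, v.2 (⟨x.right, h⟩, k) * e k ((x ^ r).left 1) := by
  change dite _ _ _ = _
  rw [dif_neg h]

lemma Psi_inj {ι : Type} [Fintype ι] [Fintype G] (e : ι → G → ℂ)
    (he : LinearIndependent ℂ e) : Function.Injective (Psi (r := r) e) := by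
  rw [← LinearMap.ker_eq_bot, LinearMap.ker_eq_bot']
  intro v hv
  obtain ⟨c, hc⟩ := exists_dual e he
  apply Prod.ext
  · funext q
    obtain ⟨j, rfl⟩ := Quotient.exists_rep q
    change v.1 (Quotient.mk _ j) = 0
    have h1 : ∀ m : Cy r → G, ∑ i : Cy r → ι, v.1 (Quotient.mk _ i) *
        prf (fun ω => e (i ω)) m = 0 := by
      intro m
      have h2 := congrFun hv (⟨m, 1⟩ : Wc G r)
      rw [Psi_base e v _ rfl] at h2
      exact h2
    have h3 : ∑ m : Cy r → G, prf (fun ω => c (j ω)) m * (∑ i : Cy r → ι,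
        v.1 (Quotient.mk _ i) * prf (fun ω => e (i ω)) m) = 0 := by
      refine Finset.sum_eq_zero fun m _ => ?_
      rw [h1 m, mul_zero]
    have h4 : ∑ i : Cy r → ι, v.1 (Quotient.mk _ i) *
        ∑ m : Cy r → G, prf (fun ω => c (j ω)) m * prf (fun ω => e (i ω)) m = 0 := by
      rw [← h3]
      simp only [Finset.mul_sum]
      rw [Finset.sum_comm]
      refine Finset.sum_congr rfl fun m _ => Finset.sum_congr rfl fun i _ => by ring
    simp only [dual_prod e c hc] at h4
    simpa using h4
  · funext bk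
    obtain ⟨⟨b, hb⟩, k⟩ := bk
    change v.2 (⟨b, hb⟩, k) = 0
    have h1 : ∀ g : G, ∑ k', v.2 (⟨b, hb⟩, k') * e k' g = 0 := by
      intro g
      have h2 := congrFun hv (el g b)
      rw [Psi_off e v _ hb, el_pow_r g hb] at h2
      exact h2
    have h3 : ∑ g, c k g * ∑ k', v.2 (⟨b, hb⟩, k') * e k' g = 0 := by
      refine Finset.sum_eq_zero fun m _ => ?_
      rw [h1 m, mul_zero]
    have h4 : ∑ k', v.2 (⟨b, hb⟩, k') * ∑ g, c k g * e k' g = 0 := by
      rw [← h3]
      simp only [Finset.mul_sum]
      rw [Finset.sum_comm]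
      refine Finset.sum_congr rfl fun m _ => Finset.sum_congr rfl fun i _ => by ring
    simp only [hc] at h4
    simpa using h4

lemma finrank_range {ι : Type} [Fintype ι] [Fintype G] (e : ι → G → ℂ)
    (he : LinearIndependent ℂ e) : (r : ℤ) *
      (Module.finrank ℂ (LinearMap.range (Psi (r := r) e)) : ℤ) =
    (Fintype.card ι : ℤ) ^ r + ((r : ℤ) ^ 2 - 1) * (Fintype.card ι : ℤ) := by
  have hr : Fintype.card (Cy r) = r := by
    rw [← Nat.card_eq_fintype_card, card_Cy]
  have h0 : Fintype.card {b : Cy r // b ≠ 1} = r - 1 := by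
    rw [Fintype.card_subtype_compl, hr]
    simp
  rw [LinearMap.finrank_range_of_inj (Psi_inj e he), Module.finrank_prod,
    Module.finrank_fintype_fun_eq_card, Module.finrank_fintype_fun_eq_card, Fintype.card_prod, h0]
  have h1 : 1 ≤ r := (Fact.out : r.Prime).one_le
  push_cast [Nat.cast_sub h1]
  rw [mul_add, card_Ob]
  ring

end Pool.Agent.Q190.AM
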