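import Pool.Agent.Q17.AM.Stm3
import Pool.Agent.Q190.AM.Lin

/-!
# The space of restrictions to the `p`-regular elements for `Wc G r`
-/

set_option autoImplicit false

open scoped Classical

noncomputable section

namespace Pool.Agent.Q190.AM

open Pool.Agent.Q17.WR Pool.Agent.Q17.AM Pool.Agent.Q17.DC

/-- restriction to the `p`-regular elements -/
def rs {G : Type} [Group G] (p : ℕ) (f : G → ℂ) (x : G) : ℂ := if p ∣ orderOf x then 0 else f x

lemma lB_eq' {G : Type} [Group G] (p : ℕ) (B : Set (G → ℂ)) :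
    lB p B = Module.finrank ℂ (Submodule.span ℂ (rs p '' B)) := by
  have h : {f : G → ℂ | ∃ χ ∈ B, ∀ x, f x = if p ∣ orderOf x then 0 else χ x} = rs p '' B := by
    ext f
    constructor
    · rintro ⟨χ, hχ, h⟩
      exact ⟨χ, hχ, (funext h).symm⟩
    · rintro ⟨χ, hχ, rfl⟩
      exact ⟨χ, hχ, fun x => rfl⟩
  rw [lB, h]

variable {G : Type} [Group G] {r : ℕ} [Fact r.Prime]

lemma rs_nch (p : ℕ) [Fact p.Prime] (f : Cy r → G → ℂ) :
    rs p (nch f) = nch (fun ω => rs p (f ω)) := by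
  funext x
  by_cases hx : x.right = 1
  · simp only [rs, nch, if_pos hx]
    by_cases h : p ∣ orderOf x
    · rw [if_pos h]
      obtain ⟨ω, hω⟩ := (dvd_base p x hx).1 h
      symm
      apply Finset.sum_eq_zero
      intro a _
      rw [prf]
      apply Finset.prod_eq_zero (Finset.mem_univ ω)
      rw [rs, if_pos hω]
    · rw [if_neg h]
      have h2 : ∀ ω, ¬ p ∣ orderOf (x.left ω) := fun ω hω => h ((dvd_base p x hx).2 ⟨ω, hω⟩)
      refine Finset.sum_congr rfl fun a _ => ?_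
      simp only [prf]
      refine Finset.prod_congr rfl fun ω _ => by rw [rs, if_neg (h2 ω)]
  · simp only [rs, nch, if_neg hx, ite_self]

lemma rs_cch (p : ℕ) [Fact p.Prime] (hpr : p ≠ r) (θ : G → ℂ) (l : Cy r →* ℂˣ) :
    rs p (cch θ l) = cch (rs p θ) l := by
  funext x
  by_cases hx : x.right = 1
  · simp only [rs, cch, if_pos hx]
    by_cases h : p ∣ orderOf x
    · rw [if_pos h]
      obtain ⟨ω, hω⟩ := (dvd_base p x hx).1 h
      symm
      apply Finset.prod_eq_zero (Finset.mem_univ ω)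
      rw [if_pos hω]
    · rw [if_neg h]
      have h2 : ∀ ω, ¬ p ∣ orderOf (x.left ω) := fun ω hω => h ((dvd_base p x hx).2 ⟨ω, hω⟩)
      refine Finset.prod_congr rfl fun ω _ => by rw [if_neg (h2 ω)]
  · simp only [rs, cch, if_neg hx]
    rw [if_congr (dvd_off p hpr x hx) rfl rfl, mul_ite, mul_zero]

/-- the homomorphism attached to an additive character -/
def Lh (ψ : AddChar (ZMod r) ℂ) : Cy r →* ℂˣ := (ψ.toMonoidHom).toHomUnits

lemma Lh_apply (ψ : AddChar (ZMod r) ℂ) (a : Cy r) : (Lh ψ a : ℂ) = ψ (Multiplicative.toAdd a) :=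
  rfl

lemma sum_Lh (a b : Cy r) : ∑ ψ : AddChar (ZMod r) ℂ, ψ (-Multiplicative.toAdd b) * (Lh ψ a : ℂ) =
    if a = b then (r : ℂ) else 0 := by
  have h1 := AddChar.sum_apply_eq_ite (Multiplicative.toAdd a - Multiplicative.toAdd b)
  rw [ZMod.card] at h1
  have h2 : (Multiplicative.toAdd a - Multiplicative.toAdd b = 0) ↔ a = b := by
    rw [sub_eq_zero]
    exact Multiplicative.toAdd.injective.eq_iff
  rw [if_congr h2 rfl rfl] at h1
  rw [← h1]
  refine Finset.sum_congr rfl fun ψ _ => ?_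
  rw [Lh_apply, ← AddChar.map_add_eq_mul]
  congr 1
  ring

lemma sum_cch (f : G → ℂ) (b : Cy r) (x : Wc G r) :
    ∑ ψ : AddChar (ZMod r) ℂ, ψ (-Multiplicative.toAdd b) * cch f (Lh ψ) x =
      if x.right = 1 then (if 1 = b then (r : ℂ) * ∏ ω, f (x.left ω) else 0)
      else if x.right = b then (r : ℂ) * f ((x ^ r).left 1) else 0 := by
  by_cases hx : x.right = 1
  · simp only [cch, if_pos hx]
    have h1 := sum_Lh (r := r) 1 b
    simp only [map_one, Units.val_one, mul_one] at h1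
    rw [← Finset.sum_mul, h1, ite_mul, zero_mul]
  · simp only [cch, if_neg hx]
    have h1 := sum_Lh (r := r) x.right b
    simp only [← mul_assoc]
    rw [← Finset.sum_mul, h1, ite_mul, zero_mul]

/-- the function concentrated on the coset of `b` -/
def uu (b : Cy r) (f : G → ℂ) (x : Wc G r) : ℂ :=
  if x.right = 1 then 0 else if x.right = b then f ((x ^ r).left 1) else 0

variable (p : ℕ) [Fact p.Prime] (hpr : p ≠ r) (X : Set (G → ℂ))

include hpr in
lemma mem_cch (θ : G → ℂ) (hθ : θ ∈ X) (l : Cy r →* ℂˣ) :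
    cch (rs p θ) l ∈ Submodule.span ℂ (rs p '' LX (r := r) X) :=
  Submodule.subset_span ⟨cch θ l, Or.inr ⟨θ, hθ, l, rfl⟩, rs_cch p hpr θ l⟩

include hpr in
lemma mem_uu (θ : G → ℂ) (hθ : θ ∈ X) (b : Cy r) (hb : b ≠ 1) :
    uu b (rs p θ) ∈ Submodule.span ℂ (rs p '' LX (r := r) X) := by
  have hr0 : (r : ℂ) ≠ 0 := Nat.cast_ne_zero.2 (Fact.out : r.Prime).ne_zero
  have h1 : uu b (rs p θ) = (r : ℂ)⁻¹ • ∑ ψ : AddChar (ZMod r) ℂ,
      ψ (-Multiplicative.toAdd b) • cch (rs p θ) (Lh ψ) := by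
    funext x
    rw [Pi.smul_apply, Finset.sum_apply]
    simp only [Pi.smul_apply, smul_eq_mul]
    rw [sum_cch, uu, if_neg (Ne.symm hb)]
    split_ifs
    · rw [mul_zero]
    · rw [← mul_assoc, inv_mul_cancel₀ hr0, one_mul]
    · rw [mul_zero]
  rw [h1]
  exact Submodule.smul_mem _ _ (Submodule.sum_mem _ fun ψ _ =>
    Submodule.smul_mem _ _ (mem_cch p hpr X θ hθ _))

include hpr in
lemma mem_nch (f : Cy r → G → ℂ) (hf : ∀ ω, f ω ∈ X) :
    nch (fun ω => rs p (f ω)) ∈ Submodule.span ℂ (rs p '' LX (r := r) X) := by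
  by_cases hn : Ncn f
  · exact Submodule.subset_span ⟨nch f, Or.inl ⟨f, hf, hn, rfl⟩, rs_nch p f⟩
  · have hc : ∀ ω, f ω = f 1 := by
      intro ω
      by_contra h
      exact hn ⟨ω, 1, h⟩
    have h1 : nch (fun ω => rs p (f ω)) = ∑ ψ : AddChar (ZMod r) ℂ,
        ψ (-Multiplicative.toAdd (1 : Cy r)) • cch (rs p (f 1)) (Lh ψ) := by
      funext x
      rw [Finset.sum_apply]
      simp only [Pi.smul_apply, smul_eq_mul]
      rw [sum_cch, nch, if_pos rfl]
      simp only [hc]
      split_ifs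
      · rw [Finset.sum_const, Finset.card_univ, ← Nat.card_eq_fintype_card, card_Cy,
          nsmul_eq_mul, prf]
      · rfl
    rw [h1]
    exact Submodule.sum_mem _ fun ψ _ =>
      Submodule.smul_mem _ _ (mem_cch p hpr X (f 1) (hf 1) _)

attribute [local instance] actI

variable {ι : Type} [Fintype ι] (e : ι → G → ℂ) (he : ∀ k, ∃ θ ∈ X, rs p θ = e k)

lemma shift_sum (F : Ob r ι → ℂ) (m : Cy r → G) (a : Cy r) :
    ∑ i : Cy r → ι, F (Quotient.mk _ i) * prf (fun ω => e (i (a * ω))) m =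
      ∑ i : Cy r → ι, F (Quotient.mk _ i) * prf (fun ω => e (i ω)) m := by
  refine Fintype.sum_equiv (MulAction.toPerm a⁻¹) _ _ fun i => ?_
  have h1 : (Quotient.mk (MulAction.orbitRel (Cy r) (Cy r → ι))
      (MulAction.toPerm a⁻¹ i)) = Quotient.mk _ i := Quotient.sound ⟨a⁻¹, rfl⟩
  rw [h1]
  congr 2
  funext ω
  rw [MulAction.toPerm_apply, act_apply, inv_inv]

include hpr he in
lemma range_le : LinearMap.range (Psi (r := r) e) ≤
    Submodule.span ℂ (rs p '' LX (r := r) X) := by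
  have hr0 : (r : ℂ) ≠ 0 := Nat.cast_ne_zero.2 (Fact.out : r.Prime).ne_zero
  rintro _ ⟨v, rfl⟩
  choose θ hθ hθ' using he
  have h1 : Psi e v = (∑ i : Cy r → ι, (v.1 (Quotient.mk _ i) * (r : ℂ)⁻¹) •
      nch (fun ω => e (i ω))) + ∑ bk : {b : Cy r // b ≠ 1} × ι, v.2 bk • uu bk.1.1 (e bk.2) := by
    funext x
    rw [Pi.add_apply, Finset.sum_apply, Finset.sum_apply]
    simp only [Pi.smul_apply, smul_eq_mul]
    by_cases hx : x.right = 1
    · rw [Psi_base e v x hx]
      simp only [uu, if_pos hx, mul_zero, Finset.sum_const_zero, add_zero, nch]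
      simp only [Finset.mul_sum]
      rw [Finset.sum_comm]
      have h2 : ∀ a : Cy r, ∑ i : Cy r → ι, v.1 (Quotient.mk _ i) * (r : ℂ)⁻¹ *
          prf (fun ω => e (i (a * ω))) x.left = (r : ℂ)⁻¹ *
          ∑ i : Cy r → ι, v.1 (Quotient.mk _ i) * prf (fun ω => e (i ω)) x.left := by
        intro a
        rw [← shift_sum e v.1 x.left a, Finset.mul_sum]
        refine Finset.sum_congr rfl fun i _ => by ring
      rw [Finset.sum_congr rfl fun a _ => h2 a, Finset.sum_const, Finset.card_univ,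
        ← Nat.card_eq_fintype_card, card_Cy, nsmul_eq_mul, ← mul_assoc, mul_inv_cancel₀ hr0,
        one_mul]
    · rw [Psi_off e v x hx]
      simp only [uu, if_neg hx, nch, mul_zero, Finset.sum_const_zero, zero_add]
      rw [Fintype.sum_prod_type, Finset.sum_eq_single (⟨x.right, hx⟩ : {b : Cy r // b ≠ 1})]
      · refine Finset.sum_congr rfl fun k _ => ?_
        rw [if_pos rfl]
      · rintro ⟨b, hb⟩ - hne
        refine Finset.sum_eq_zero fun k _ => ?_
        rw [if_neg, mul_zero]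
        intro h
        exact hne (Subtype.ext h.symm)
      · intro h
        exact absurd (Finset.mem_univ _) h
  rw [h1]
  refine Submodule.add_mem _ (Submodule.sum_mem _ fun i _ => Submodule.smul_mem _ _ ?_)
    (Submodule.sum_mem _ fun bk _ => Submodule.smul_mem _ _ ?_)
  · have h3 := mem_nch p hpr X (fun ω => θ (i ω)) fun ω => hθ (i ω)
    simp only [hθ'] at h3
    exact h3
  · have h3 := mem_uu p hpr X (θ bk.2) (hθ bk.2) bk.1.1 bk.1.2
    rw [hθ'] at h3
    exact h3

include hpr in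
lemma le_range (hs : ∀ θ ∈ X, rs p θ ∈ Submodule.span ℂ (Set.range e)) :
    Submodule.span ℂ (rs p '' LX (r := r) X) ≤ LinearMap.range (Psi (r := r) e) := by
  rw [Submodule.span_le]
  rintro _ ⟨χ, hχ | hχ, rfl⟩
  · obtain ⟨f, hf, -, rfl⟩ := hχ
    rw [rs_nch]
    have h1 : ∀ ω, ∃ c : ι → ℂ, ∑ k, c k • e k = rs p (f ω) := fun ω =>
      (Submodule.mem_span_range_iff_exists_fun ℂ).1 (hs _ (hf ω))
    choose c hc using h1
    have hc' : ∀ ω g, rs p (f ω) g = ∑ k, c ω k * e k g := by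
      intro ω g
      rw [← hc ω, Finset.sum_apply]
      rfl
    refine ⟨⟨Quotient.lift (fun i : Cy r → ι => ∑ a, ∏ ω, c (a * ω) (i ω)) ?_, 0⟩, ?_⟩
    · rintro i j ⟨b, rfl⟩
      change ∑ a, ∏ ω, c (a * ω) (j (b⁻¹ * ω)) = ∑ a, ∏ ω, c (a * ω) (j ω)
      refine Fintype.sum_equiv (Equiv.mulRight b) _ _ fun a => ?_
      refine Fintype.prod_equiv (Equiv.mulLeft b⁻¹) _ _ fun ω => ?_
      simp only [Equiv.coe_mulRight, Equiv.coe_mulLeft]
      rw [mul_assoc, mul_inv_cancel_left]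
    · funext x
      by_cases hx : x.right = 1
      · rw [Psi_base e _ x hx, nch, if_pos hx]
        have h2 : ∀ a : Cy r, prf (fun ω => rs p (f (a * ω))) x.left =
            ∑ i : Cy r → ι, (∏ ω, c (a * ω) (i ω)) * prf (fun ω => e (i ω)) x.left := fun a =>
          prf_sum e _ (fun ω => c (a * ω)) (fun ω g => hc' (a * ω) g) x.left
        simp only [h2]
        rw [Finset.sum_comm]
        refine Finset.sum_congr rfl fun i _ => ?_
        rw [← Finset.sum_mul]
        rfl
      · rw [Psi_off e _ x hx, nch, if_neg hx]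
        simp
  · obtain ⟨θ, hθ, l, rfl⟩ := hχ
    rw [rs_cch p hpr]
    obtain ⟨c, hc⟩ := (Submodule.mem_span_range_iff_exists_fun ℂ).1 (hs θ hθ)
    have hc' : ∀ g, rs p θ g = ∑ k, c k * e k g := by
      intro g
      rw [← hc, Finset.sum_apply]
      rfl
    refine ⟨⟨Quotient.lift (fun i : Cy r → ι => ∏ ω, c (i ω)) ?_,
      fun bk => (l bk.1.1 : ℂ) * c bk.2⟩, ?_⟩
    · rintro i j ⟨b, rfl⟩
      change ∏ ω, c (j (b⁻¹ * ω)) = ∏ ω, c (j ω)
      exact Fintype.prod_equiv (Equiv.mulLeft b⁻¹) _ _ fun ω => rfl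
    · funext x
      by_cases hx : x.right = 1
      · rw [Psi_base e _ x hx, cch, if_pos hx]
        exact (prf_sum e (fun _ => rs p θ) (fun _ => c) (fun _ g => hc' g) x.left).symm
      · rw [Psi_off e _ x hx, cch, if_neg hx, hc', Finset.mul_sum]
        refine Finset.sum_congr rfl fun k _ => ?_
        ring

/-- the dimension formula -/
theorem t_LLX : S_LLX := by
  intro G _ _ p r _ _ hpr X
  rw [lB_eq', lB_eq']
  obtain ⟨b, hb, hs, hli⟩ := exists_linearIndependent ℂ (rs p '' X)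
  have : Finite b := hli.finite
  have : Fintype b := Fintype.ofFinite b
  have h1 : Submodule.span ℂ (rs p '' LX (r := r) X) =
      LinearMap.range (Psi (r := r) (fun k : b => (k : G → ℂ))) := by
    apply le_antisymm
    · refine le_range p hpr X _ fun θ hθ => ?_
      rw [Subtype.range_coe, hs]
      exact Submodule.subset_span ⟨θ, hθ, rfl⟩
    · refine range_le p hpr X _ fun k => ?_
      obtain ⟨θ, hθ, h⟩ := hb k.2
      exact ⟨θ, hθ, h⟩
  have h2 : Module.finrank ℂ (Submodule.span ℂ (rs p '' X)) = Fintype.card b := by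
    rw [← hs]
    have h3 := finrank_span_eq_card hli
    rw [Subtype.range_coe] at h3
    exact h3
  rw [h1, h2]
  exact finrank_range _ hli

end Pool.Agent.Q190.AM
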