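import Pool.Agent.Q190.AM.LLX
import Pool.Agent.Q17.AM.Stm3
import Pool.Agent.Q261.DC.Cmp

/-!
# The space of restrictions to the `p`-regular elements, two different blocks
-/

set_option autoImplicit false

open scoped Classical

noncomputable section

namespace Pool.Agent.Q190.AM

open Pool.Agent.H254R3.IN Pool.Agent.Helper884
open Pool.Agent.Q17.WR Pool.Agent.Q17.AM Pool.Agent.Q17.DC

/-- linear independence of the irreducible characters -/
lemma irr_li (A : Type) [Group A] [Fintype A] :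
    LinearIndependent ℂ (fun x : {χ : A → ℂ | IsIrr χ} => (x : A → ℂ)) := by
  rw [linearIndependent_iff']
  intro s c hc i hi
  have h1 := congrArg (fun F => IC.B F i.1) hc
  rw [IC.B_sum_left] at h1
  simp only [IC.B_smul_left] at h1
  rw [Finset.sum_eq_single i] at h1
  · rw [IC.B_irr i.2 i.2, if_pos rfl, mul_one] at h1
    rw [h1]
    simp [IC.B]
  · intro j _ hj
    rw [IC.B_irr j.2 i.2, if_neg (fun h => hj (Subtype.ext h)), mul_zero]
  · intro h
    exact absurd hi h

lemma span_disj {A : Type} [Group A] [Fintype A] {O : ValuationSubring ℂ} {B B' : Set (A → ℂ)}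
    (hB : IsBlock O B) (hB' : IsBlock O B') (hne : B ≠ B') :
    Disjoint (Submodule.span ℂ B) (Submodule.span ℂ B') := by
  have h1 : Disjoint {x : {χ : A → ℂ | IsIrr χ} | (x : A → ℂ) ∈ B}
      {x : {χ : A → ℂ | IsIrr χ} | (x : A → ℂ) ∈ B'} := by
    rw [Set.disjoint_left]
    intro x hx hx'
    exact Pool.Agent.Q261.DC.block_disj hB hB' hne _ hx' hx
  have h2 := (irr_li A).disjoint_span_image h1
  have h3 : ∀ {C : Set (A → ℂ)}, IsBlock O C → (fun x : {χ : A → ℂ | IsIrr χ} => (x : A → ℂ)) ''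
      {x : {χ : A → ℂ | IsIrr χ} | (x : A → ℂ) ∈ C} = C := by
    intro C hC
    ext χ
    constructor
    · rintro ⟨x, hx, rfl⟩
      exact hx
    · intro hχ
      exact ⟨⟨χ, hC.irr χ hχ⟩, hχ, rfl⟩
  rwa [h3 hB, h3 hB'] at h2

lemma rs_eq_rS {A : Type} [Group A] [Finite A] (p : ℕ) [Fact p.Prime] (f : A → ℂ) :
    rs p f = Pool.Agent.Q261.DC.rS p 1 f := by
  funext x
  rw [Pool.Agent.Q261.DC.rS_apply, rs]
  by_cases hx : p ∣ orderOf x
  · rw [if_pos hx, if_neg (fun h => (Pool.Agent.Q261.DC.InS_one x).1 h hx)]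
  · rw [if_neg hx, if_pos ((Pool.Agent.Q261.DC.InS_one x).2 hx)]

lemma rs_span_le {A : Type} [Group A] [Fintype A] (sect : S_SECT) {p : ℕ} [Fact p.Prime]
    {O : ValuationSubring ℂ} (hp : (p : ℂ) ∈ O.nonunits) {B : Set (A → ℂ)} (hB : IsBlock O B) :
    Submodule.span ℂ (rs p '' B) ≤ Submodule.span ℂ B := by
  rw [Submodule.span_le]
  rintro _ ⟨χ, hχ, rfl⟩
  have h1 := Pool.Agent.Q261.DC.rS_stab sect hp hB 1
  rw [rs_eq_rS]
  exact h1 ⟨χ, Submodule.subset_span hχ, rfl⟩

/-- the element of order two -/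
def aa : Cy 2 := Multiplicative.ofAdd 1

lemma aa_ne : aa ≠ 1 := by decide

lemma cy2 (ω : Cy 2) : ω = 1 ∨ ω = aa := by
  revert ω
  decide

/-- a family indexed by the group of order two -/
def fam {α : Type} (u v : α) (ω : Cy 2) : α := if ω = 1 then u else v

lemma fam_eq {α : Type} (f : Cy 2 → α) : f = fam (f 1) (f aa) := by
  funext ω
  rcases cy2 ω with rfl | rfl
  · rw [fam, if_pos rfl]
  · rw [fam, if_neg aa_ne]

lemma prod_cy2 (F : Cy 2 → ℂ) : ∏ ω, F ω = F 1 * F aa := by
  have h : (Finset.univ : Finset (Cy 2)) = {1, aa} := by decide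
  rw [h, Finset.prod_pair (by decide)]

lemma sum_cy2 (F : Cy 2 → ℂ) : ∑ ω, F ω = F 1 + F aa := by
  have h : (Finset.univ : Finset (Cy 2)) = {1, aa} := by decide
  rw [h, Finset.sum_pair (by decide)]

variable {G : Type} [Group G]

lemma nch2 (f : Cy 2 → G → ℂ) (x : Wc G 2) : nch f x = if x.right = 1 then
    f 1 (x.left 1) * f aa (x.left aa) + f aa (x.left 1) * f 1 (x.left aa) else 0 := by
  rw [nch]
  refine if_congr Iff.rfl ?_ rfl
  rw [sum_cy2, prf, prf, prod_cy2, prod_cy2]
  have h : aa * aa = 1 := by decide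
  simp only [one_mul, mul_one, h]

/-- the dimension for two different blocks -/
theorem t_LGX (sect : S_SECT) : S_LGX := by
  intro G _ _ p _ hp2 O hp B B' hB hB' hne
  rw [lB_eq', lB_eq', lB_eq']
  obtain ⟨b, hb, hs, hli⟩ := exists_linearIndependent ℂ (rs p '' B)
  obtain ⟨b', hb', hs', hli'⟩ := exists_linearIndependent ℂ (rs p '' B')
  have : Finite b := hli.finite
  have : Finite b' := hli'.finite
  have : Fintype b := Fintype.ofFinite b
  have : Fintype b' := Fintype.ofFinite b'
  have hd : Disjoint (Submodule.span ℂ (Set.range (fun k : b => (k : G → ℂ))))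
      (Submodule.span ℂ (Set.range (fun k : b' => (k : G → ℂ)))) := by
    rw [Subtype.range_coe, Subtype.range_coe, hs, hs']
    exact (span_disj hB hB' hne).mono (rs_span_le sect hp hB) (rs_span_le sect hp hB')
  have hE := LinearIndependent.sum_type hli hli' hd
  obtain ⟨c, hc⟩ := exists_dual _ hE
  have hw : LinearIndependent ℂ (fun k : b × b' =>
      (nch (fam (k.1 : G → ℂ) (k.2 : G → ℂ)) : Wc G 2 → ℂ)) := by
    rw [Fintype.linearIndependent_iff]
    intro γ hγ l
    obtain ⟨l, l'⟩ := l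
    have h1 : ∀ g h : G, ∑ k : b × b', γ k * ((k.1 : G → ℂ) g * (k.2 : G → ℂ) h +
        (k.2 : G → ℂ) g * (k.1 : G → ℂ) h) = 0 := by
      intro g h
      have h2 := congrFun hγ (⟨fam g h, 1⟩ : Wc G 2)
      rw [Finset.sum_apply] at h2
      refine Eq.trans (Finset.sum_congr rfl fun k _ => ?_) h2
      rw [Pi.smul_apply, smul_eq_mul, nch2, if_pos rfl]
      simp [fam, aa_ne]
    have hc1 : ∀ k : b, ∑ g, c (Sum.inl l) g * (k : G → ℂ) g = if l = k then 1 else 0 := by
      intro k
      have h3 := hc (Sum.inl l) (Sum.inl k)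
      simpa using h3
    have hc2 : ∀ k : b', ∑ g, c (Sum.inl l) g * (k : G → ℂ) g = 0 := by
      intro k
      have h3 := hc (Sum.inl l) (Sum.inr k)
      simpa using h3
    have hc3 : ∀ k : b', ∑ g, c (Sum.inr l') g * (k : G → ℂ) g = if l' = k then 1 else 0 := by
      intro k
      have h3 := hc (Sum.inr l') (Sum.inr k)
      simpa using h3
    have h4 : ∑ k : b × b', γ k * ∑ g, ∑ h, (c (Sum.inl l) g * c (Sum.inr l') h) *
        ((k.1 : G → ℂ) g * (k.2 : G → ℂ) h + (k.2 : G → ℂ) g * (k.1 : G → ℂ) h) = 0 := by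
      have h5 : ∑ g, ∑ h, (c (Sum.inl l) g * c (Sum.inr l') h) * ∑ k : b × b', γ k *
          ((k.1 : G → ℂ) g * (k.2 : G → ℂ) h + (k.2 : G → ℂ) g * (k.1 : G → ℂ) h) = 0 := by
        refine Finset.sum_eq_zero fun g _ => Finset.sum_eq_zero fun h _ => ?_
        rw [h1, mul_zero]
      rw [← h5]
      simp only [Finset.mul_sum]
      rw [Finset.sum_comm]
      refine Finset.sum_congr rfl fun g _ => ?_
      rw [Finset.sum_comm]
      refine Finset.sum_congr rfl fun h _ => Finset.sum_congr rfl fun k _ => by ring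
    have h6 : ∀ k : b × b', ∑ g, ∑ h, (c (Sum.inl l) g * c (Sum.inr l') h) *
        ((k.1 : G → ℂ) g * (k.2 : G → ℂ) h + (k.2 : G → ℂ) g * (k.1 : G → ℂ) h) =
        if (l, l') = k then 1 else 0 := by
      rintro ⟨k, k'⟩
      have h7 : ∑ g, ∑ h, (c (Sum.inl l) g * c (Sum.inr l') h) *
          ((k : G → ℂ) g * (k' : G → ℂ) h + (k' : G → ℂ) g * (k : G → ℂ) h) =
          (∑ g, c (Sum.inl l) g * (k : G → ℂ) g) * (∑ h, c (Sum.inr l') h * (k' : G → ℂ) h) +
          (∑ g, c (Sum.inl l) g * (k' : G → ℂ) g) * (∑ h, c (Sum.inr l') h * (k : G → ℂ) h) := by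
        rw [Finset.sum_mul_sum, Finset.sum_mul_sum, ← Finset.sum_add_distrib]
        refine Finset.sum_congr rfl fun g _ => ?_
        rw [← Finset.sum_add_distrib]
        refine Finset.sum_congr rfl fun h _ => by ring
      rw [h7, hc1, hc2, hc3, zero_mul, add_zero]
      by_cases e1 : l = k
      · by_cases e2 : l' = k'
        · simp [e1, e2]
        · simp [e1, e2]
      · simp [e1]
    simp only [h6] at h4
    simpa using h4
  have hspan : Submodule.span ℂ (rs p '' GX B B') = Submodule.span ℂ (Set.range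
      (fun k : b × b' => (nch (fam (k.1 : G → ℂ) (k.2 : G → ℂ)) : Wc G 2 → ℂ))) := by
    apply le_antisymm
    · rw [Submodule.span_le]
      rintro _ ⟨_, ⟨f, hf1, hfa, rfl⟩, rfl⟩
      have e1 : rs p (f 1) ∈ Submodule.span ℂ (Set.range (fun k : b => (k : G → ℂ))) := by
        rw [Subtype.range_coe, hs]
        exact Submodule.subset_span ⟨_, hf1, rfl⟩
      have e2 : rs p (f aa) ∈ Submodule.span ℂ (Set.range (fun k : b' => (k : G → ℂ))) := by
        rw [Subtype.range_coe, hs']
        exact Submodule.subset_span ⟨_, hfa, rfl⟩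
      obtain ⟨d, hd1⟩ := (Submodule.mem_span_range_iff_exists_fun ℂ).1 e1
      obtain ⟨d', hd2⟩ := (Submodule.mem_span_range_iff_exists_fun ℂ).1 e2
      have hd1' : ∀ g, rs p (f 1) g = ∑ k : b, d k * (k : G → ℂ) g := by
        intro g
        rw [← hd1, Finset.sum_apply]
        rfl
      have hd2' : ∀ g, rs p (f aa) g = ∑ k : b', d' k * (k : G → ℂ) g := by
        intro g
        rw [← hd2, Finset.sum_apply]
        rfl
      have h8 : rs p (nch f) = ∑ k : b × b', (d k.1 * d' k.2) •
          (nch (fam (k.1 : G → ℂ) (k.2 : G → ℂ)) : Wc G 2 → ℂ) := by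
        rw [rs_nch]
        funext x
        rw [Finset.sum_apply, nch2]
        simp only [Pi.smul_apply, smul_eq_mul, nch2]
        split_ifs with hx
        · rw [hd1', hd1', hd2', hd2', Finset.sum_mul_sum, Fintype.sum_prod_type,
            mul_comm (∑ k : b', d' k * (k : G → ℂ) (x.left 1)), Finset.sum_mul_sum,
            ← Finset.sum_add_distrib]
          refine Finset.sum_congr rfl fun k _ => ?_
          rw [← Finset.sum_add_distrib]
          refine Finset.sum_congr rfl fun k' _ => ?_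
          simp only [fam, if_neg aa_ne, if_true]
          ring
        · simp
      rw [SetLike.mem_coe, h8]
      exact Submodule.sum_mem _ fun k _ => Submodule.smul_mem _ _ (Submodule.subset_span ⟨k, rfl⟩)
    · rw [Submodule.span_le]
      rintro _ ⟨⟨k, k'⟩, rfl⟩
      obtain ⟨θ, hθ, h⟩ := hb k.2
      obtain ⟨θ', hθ', h'⟩ := hb' k'.2
      refine Submodule.subset_span ⟨nch (fam θ θ'), ⟨fam θ θ', ?_, ?_, rfl⟩, ?_⟩
      · rw [fam, if_pos rfl]
        exact hθ
      · change fam θ θ' aa ∈ B'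
        rw [fam, if_neg aa_ne]
        exact hθ'
      · rw [rs_nch]
        congr 1
        rw [fam_eq (fun ω => rs p (fam θ θ' ω))]
        simp only [fam, if_neg aa_ne, if_true]
        rw [h, h']
  rw [hspan, finrank_span_eq_card hw, Fintype.card_prod]
  congr 1
  · rw [← hs]
    have h3 := finrank_span_eq_card hli
    rw [Subtype.range_coe] at h3
    exact h3.symm
  · rw [← hs']
    have h3 := finrank_span_eq_card hli'
    rw [Subtype.range_coe] at h3
    exact h3.symm

end Pool.Agent.Q190.AM
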