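import Pool.Agent.Q17.AM.Stm

/-!
# Orders of elements of the wreath product with a cyclic group of prime order
-/

set_option autoImplicit false

open scoped Classical

noncomputable section

namespace Pool.Agent.Q190.AM

open Pool.Agent.Q17.WR Pool.Agent.Q17.AM

variable {G : Type} [Group G] {r : ℕ} [Fact r.Prime]

lemma mul_left_apply (x y : Wc G r) (ω : Cy r) :
    (x * y).left ω = x.left ω * y.left (x.right⁻¹ * ω) := rfl

lemma pow_right (x : Wc G r) (n : ℕ) : (x ^ n).right = x.right ^ n :=
  map_pow (SemidirectProduct.rightHom (φ := mulAutArrow)) x n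

lemma card_Cy : Nat.card (Cy r) = r := by
  rw [Nat.card_congr Multiplicative.toAdd, Nat.card_zmod]

lemma pow_card_Cy (a : Cy r) : a ^ r = 1 := by
  have h := pow_card_eq_one' (x := a)
  rwa [card_Cy] at h

lemma pow_r_right (x : Wc G r) : (x ^ r).right = 1 := by
  rw [pow_right, pow_card_Cy]

lemma cyc_gen {a : Cy r} (ha : a ≠ 1) (ω : Cy r) : ∃ n : ℕ, a ^ n = ω :=
  mem_powers_of_prime_card card_Cy ha (g' := ω)

lemma dvd_base (p : ℕ) [Fact p.Prime] (x : Wc G r) (hx : x.right = 1) :
    p ∣ orderOf x ↔ ∃ ω, p ∣ orderOf (x.left ω) := by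
  have h1 : x = SemidirectProduct.inl x.left := by
    apply SemidirectProduct.ext
    · simp
    · simp [hx]
  have h2 : orderOf x = orderOf x.left := by
    conv_lhs => rw [h1]
    exact orderOf_injective SemidirectProduct.inl SemidirectProduct.inl_injective _
  rw [h2]
  constructor
  · intro h
    by_contra hc
    push Not at hc
    have h3 : orderOf x.left ∣ ∏ ω, orderOf (x.left ω) := by
      rw [orderOf_dvd_iff_pow_eq_one]
      funext ω
      rw [Pi.pow_apply, Pi.one_apply, ← orderOf_dvd_iff_pow_eq_one]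
      exact Finset.dvd_prod_of_mem _ (Finset.mem_univ ω)
    obtain ⟨ω, -, h4⟩ := ((Fact.out : p.Prime).prime.dvd_finset_prod_iff _).1 (h.trans h3)
    exact hc ω h4
  · rintro ⟨ω, h⟩
    exact h.trans (orderOf_map_dvd (Pi.evalMonoidHom (fun _ => G) ω) x.left)

lemma ord_step (x : Wc G r) (ω : Cy r) :
    orderOf ((x ^ r).left (x.right⁻¹ * ω)) = orderOf ((x ^ r).left ω) := by
  have h1 : x * x ^ r = x ^ r * x := (pow_mul_comm' x r).symm
  have h2 := congrFun (congrArg (fun y : Wc G r => y.left) h1) ω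
  simp only [mul_left_apply] at h2
  rw [pow_r_right, inv_one, one_mul] at h2
  exact SemiconjBy.orderOf_eq (x.left ω) h2

lemma ord_all (x : Wc G r) (hx : x.right ≠ 1) (ω : Cy r) :
    orderOf ((x ^ r).left ω) = orderOf ((x ^ r).left 1) := by
  obtain ⟨n, rfl⟩ := cyc_gen hx ω
  induction n with
  | zero => simp
  | succ n ih =>
    rw [← ih, ← ord_step x (x.right ^ (n + 1)), pow_succ']
    congr 2
    simp

lemma dvd_off (p : ℕ) [Fact p.Prime] (hpr : p ≠ r) (x : Wc G r) (hx : x.right ≠ 1) :
    p ∣ orderOf x ↔ p ∣ orderOf ((x ^ r).left 1) := by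
  have h1 : p ∣ orderOf x ↔ p ∣ orderOf (x ^ r) := by
    constructor
    · intro h
      have h2 : orderOf x ∣ r * orderOf (x ^ r) := by
        rw [orderOf_dvd_iff_pow_eq_one, pow_mul, pow_orderOf_eq_one]
      rcases (Fact.out : p.Prime).dvd_mul.1 (h.trans h2) with h3 | h3
      · exact absurd ((Nat.prime_dvd_prime_iff_eq Fact.out Fact.out).1 h3) hpr
      · exact h3
    · intro h
      exact h.trans (orderOf_pow_dvd r)
  rw [h1, dvd_base p _ (pow_r_right x)]
  constructor
  · rintro ⟨ω, h⟩
    rwa [ord_all x hx] at h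
  · intro h
    exact ⟨1, h⟩

/-- the element with `left 1 = g` and other components `1` -/
def el (g : G) (b : Cy r) : Wc G r := ⟨fun ω => if ω = 1 then g else 1, b⟩

lemma pow_inj_Cy {b : Cy r} (hb : b ≠ 1) {n : ℕ} (h : b ^ n = 1) (hn : 0 < n) : r ≤ n := by
  have h1 : orderOf b = r := orderOf_eq_prime (pow_card_Cy b) hb
  have h2 := orderOf_dvd_of_pow_eq_one h
  rw [h1] at h2
  exact Nat.le_of_dvd hn h2

lemma el_pow (g : G) {b : Cy r} (hb : b ≠ 1) (n : ℕ) (hn : n ≤ r) (ω : Cy r) :
    ((el g b) ^ n).left ω = if ∃ k < n, b ^ k = ω then g else 1 := by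
  induction n generalizing ω with
  | zero => simp
  | succ n ih =>
    rw [pow_succ', mul_left_apply, ih (by omega)]
    by_cases h1 : ω = 1
    · subst h1
      have h2 : ¬ ∃ k < n, b ^ k = (el g b).right⁻¹ * 1 := by
        rintro ⟨k, hk, hk'⟩
        have h3 : b ^ (k + 1) = 1 := by
          rw [pow_succ, hk']
          simp [el]
        have h4 := pow_inj_Cy hb h3 (by omega)
        omega
      rw [if_neg h2, if_pos ⟨0, by omega, by simp⟩]
      simp [el]
    · have h5 : (∃ k < n + 1, b ^ k = ω) ↔ ∃ k < n, b ^ k = (el g b).right⁻¹ * ω := by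
        constructor
        · rintro ⟨k, hk, hk'⟩
          rcases k with _ | k
          · exact absurd (by rw [← hk']; simp) h1
          · refine ⟨k, by omega, ?_⟩
            rw [← hk', pow_succ']
            simp [el]
        · rintro ⟨k, hk, hk'⟩
          refine ⟨k + 1, by omega, ?_⟩
          rw [pow_succ', hk']
          simp [el]
      rw [if_congr h5 rfl rfl]
      simp [el, h1]

lemma el_right (g : G) (b : Cy r) : (el g b).right = b := rfl

lemma el_pow_r (g : G) {b : Cy r} (hb : b ≠ 1) : ((el g b) ^ r).left 1 = g := by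
  rw [el_pow g hb r le_rfl, if_pos ⟨0, (Fact.out : r.Prime).pos, by simp⟩]

end Pool.Agent.Q190.AM
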